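import Pool.Agent.X35.GV.Hyper
import Pool.Agent.X35.GV.CenteredU

/-!
# Class functions of Frobenius at the primes of degree one of ALL number fields for ALL one-parameter families of abelian surfaces (Jacobians of
genus `2`, products of elliptic curves) and, more generally, of products of hyperelliptic Jacobians, in progressions and at all heights, for ALL
integers `n` near `± α v_i`, outside a set of `α` of small dimension
-/

set_option autoImplicit false

namespace Pool.Agent.Results.MP_6dc561_nt.AllNumberFieldsNearSequences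

open Finset Polynomial

open Classical in
/-- The primes of degree one above `p` of the number field `ℚ[Y]/(h)`, `h` monic: the zeros `0 ≤ ρ < p` of `h` modulo `p`
(for irreducible `h` and `p` not dividing the discriminant of `h` they correspond to the primes `v = (p, θ - ρ)` with the
residue field `𝔽_p`, `θ` the class of `Y`). -/
noncomputable def places (h : ℤ[X]) (p : ℕ) : Finset ℕ := (range p).filter (fun ρ : ℕ => (p : ℤ) ∣ h.eval (ρ : ℤ))

/-- The reduction modulo the prime `v = (p, θ - ρ)` of the value at `T = n` of a polynomial `c(T)` with coefficients in `ℤ[θ]`; `c`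
is given as an element of `ℤ[Y][T]`. -/
noncomputable def red (n : ℤ) (ρ p : ℕ) : ℤ[X][X] →+* ZMod p :=
  (Int.castRingHom (ZMod p)).comp ((evalRingHom (ρ : ℤ)).comp (evalRingHom (C n)))

/-- The curve `C : y² = f(x)` (`f` of degree `2 g + 1` or `2 g + 2`) is a smooth curve of genus `g` over `𝔽_p`: `p` is an odd prime, and `f` has
degree `2 g + 1` or `2 g + 2` and no multiple root. -/
def Good (g p : ℕ) (f : (ZMod p)[X]) : Prop :=
  p.Prime ∧ p ≠ 2 ∧ (f.natDegree = 2 * g + 1 ∨ f.natDegree = 2 * g + 2) ∧ f.Separable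

open Classical in
/-- The number `#C(𝔽)`, `𝔽` the field with `p ^ k` elements, of the points of the smooth projective curve `C : y² = f(x)` of genus `g`: the affine
points, and the points at infinity (one for each `y ∈ 𝔽` with `y² = c`, `c` the coefficient of `x ^ (2 g + 2)`). -/
noncomputable def points (g p k : ℕ) (f : (ZMod p)[X]) : ℕ :=
  if h : p.Prime then
    haveI : Fact p.Prime := ⟨h⟩
    Nat.card {P : GaloisField p k × GaloisField p k // P.2 ^ 2 = aeval P.1 f} +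
      Nat.card {y : GaloisField p k // y ^ 2 = algebraMap (ZMod p) (GaloisField p k) (f.coeff (2 * g + 2))}
  else 0

/-- The sum of the `k`-th powers of the normalised Frobenius eigenvalues on `H¹`: `(p ^ k + 1 - #C(𝔽)) / p ^ (k / 2)`, where
`𝔽` is the field with `p ^ k` elements. -/
noncomputable def powerSum (g p : ℕ) (f : (ZMod p)[X]) (k : ℕ) : ℝ :=
  ((p : ℝ) ^ k + 1 - points g p k f) / Real.sqrt p ^ k

/-- The members `n` of the families `G_1, ..., G_r ∈ ℤ[Y][T][x]` over `ℚ[Y]/(h)` of the curves `y² = G_j(x)` of genera `g_1, ..., g_r` have good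
reduction at `v = (p, θ - ρ)`. -/
def AllGood {r : ℕ} (g : Fin r → ℕ) (G : Fin r → ℤ[X][X][X]) (n : ℤ) (ρ p : ℕ) : Prop := ∀ j, Good (g j) p ((G j).map (red n ρ p))

open Classical in
/-- The value at the Frobenius element of `v = (p, θ - ρ)` of the class function `Φ(s_1, ..., s_R)` for the product of the Jacobians of the
members `n` of the families, `s_k` the power sums of the normalised eigenvalues of the product, and `0` at the bad places. -/
noncomputable def classFunction {r : ℕ} (g : Fin r → ℕ) (G : Fin r → ℤ[X][X][X]) {R : ℕ} (Φ : MvPolynomial (Fin R) ℚ) (n : ℤ) (ρ p : ℕ) : ℝ :=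
  if AllGood g G n ρ p then MvPolynomial.aeval (fun i : Fin R => ∑ j, powerSum (g j) p ((G j).map (red n ρ p)) (i + 1)) Φ else 0

/-- The sum over the primes of degree one above `p`. -/
noncomputable def placeSum (h : ℤ[X]) {r : ℕ} (g : Fin r → ℕ) (G : Fin r → ℤ[X][X][X]) {R : ℕ} (Φ : MvPolynomial (Fin R) ℚ) (p : ℕ) (n : ℤ) : ℝ :=
  ∑ ρ ∈ places h p, classFunction g G Φ n ρ p

/-- The average over the members `t = 0, ..., p - 1` of the families. -/
noncomputable def average (h : ℤ[X]) {r : ℕ} (g : Fin r → ℕ) (G : Fin r → ℤ[X][X][X]) {R : ℕ} (Φ : MvPolynomial (Fin R) ℚ) (p : ℕ) : ℝ :=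
  (∑ t ∈ range p, placeSum h g G Φ p (t : ℤ)) / p

open Classical in
/-- The sum over the odd primes `p ≤ x`, `p ≡ a` modulo `q`, of `(placeSum - average) (log p) p ^ (- i σ)`. -/
noncomputable def difference (h : ℤ[X]) {r : ℕ} (g : Fin r → ℕ) (G : Fin r → ℤ[X][X][X]) {R : ℕ} (Φ : MvPolynomial (Fin R) ℚ) (n : ℤ)
    (x q : ℕ) (a : ℤ) (σ : ℝ) : ℂ :=
  ∑ p ∈ (range (x + 1)).filter (fun p : ℕ => p.Prime ∧ p ≠ 2 ∧ (p : ℤ) ≡ a [ZMOD (q : ℤ)]),
    (((placeSum h g G Φ p n - average h g G Φ p) * Real.log p : ℝ) : ℂ) * (p : ℂ) ^ (-(σ * Complex.I))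

theorem places_card {h : ℤ[X]} (hm : h.Monic) (p : ℕ) (hp : p.Prime) : (places h p).card ≤ h.natDegree := by
  classical
  unfold places
  have : Fact p.Prime := ⟨hp⟩
  have hmp : (h.map (Int.castRingHom (ZMod p))).Monic := hm.map _
  have h1 : ((range p).filter (fun r : ℕ => (p : ℤ) ∣ h.eval (r : ℤ))).card ≤
      (h.map (Int.castRingHom (ZMod p))).roots.toFinset.card := by
    apply card_le_card_of_injOn (fun r : ℕ => (r : ZMod p))
    · intro r hr
      rw [mem_coe, mem_filter] at hr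
      rw [mem_coe, Multiset.mem_toFinset, mem_roots hmp.ne_zero, IsRoot.def]
      have h2 : (h.map (Int.castRingHom (ZMod p))).eval ((r : ℕ) : ZMod p) = ((h.eval (r : ℤ) : ℤ) : ZMod p) := by
        simp
      rw [h2]
      exact (ZMod.intCast_zmod_eq_zero_iff_dvd _ p).2 hr.2
    · intro r hr r' hr' he
      rw [mem_coe, mem_filter, mem_range] at hr hr'
      have h3 := (ZMod.natCast_eq_natCast_iff' r r' p).1 he
      rwa [Nat.mod_eq_of_lt hr.1, Nat.mod_eq_of_lt hr'.1] at h3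
  refine h1.trans ((Multiset.toFinset_card_le _).trans ((card_roots' _).trans ?_))
  exact natDegree_map_le

theorem red_per (n m : ℤ) (ρ p : ℕ) (h : n ≡ m [ZMOD (p : ℕ)]) : red n ρ p = red m ρ p := by
  apply RingHom.ext
  intro c
  show (((c.eval (C n)).eval (ρ : ℤ) : ℤ) : ZMod p) = (((c.eval (C m)).eval (ρ : ℤ) : ℤ) : ZMod p)
  apply (ZMod.intCast_eq_intCast_iff _ _ p).2
  have h1 := c.sub_dvd_eval_sub (C m) (C n)
  rw [← C_sub] at h1
  obtain ⟨w, hw⟩ := h1
  have h2 : (c.eval (C m)).eval (ρ : ℤ) - (c.eval (C n)).eval (ρ : ℤ) = (m - n) * w.eval (ρ : ℤ) := by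
    rw [← eval_sub, hw, eval_mul, eval_C]
  apply Int.modEq_iff_dvd.2
  rw [h2]
  exact (Int.modEq_iff_dvd.1 h).mul_right _

/-- Let `δ > 0` and `A ≥ 0`. There are `κ > 0` and `C > 0` such that for all reals `v_i ≥ 1` with `∑ v_i ^ (-u) < ∞` for all `u > τ` (`τ ≥ 0`;
for example `v_i = 2 ^ i`, `τ = 0`) and all `θ < 1` there is a set `E` of reals of Hausdorff dimension at most `(1 - κ + τ) / (1 - θ)` with the
following property. For every real `α > 0` outside `E`, ALL monic `h ∈ ℤ[Y]` (all number fields `ℚ[Y]/(h)`), ALL `r`, genera `g_1, ..., g_r` and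
families `G_1, ..., G_r ∈ ℤ[Y][T][x]` over the number field, ALL polynomials `Φ` over `ℚ` in the power sums `s_1, ..., s_R`, all
`i ≥ i₀(α, h, g, G, Φ)`, ALL integers `n` with `||n| - α v_i| ≤ v_i ^ θ`, ALL integers `x` with `(log |n|) ^ C ≤ x ≤ |n| ^ κ`, ALL `1 ≤ q ≤ x ^ A`
and `a`, and ALL real `σ` with `|σ| ≤ x ^ A`, the sum over the odd primes `p ≤ x`, `p ≡ a` modulo `q`, of
`(∑_v Φ(Frob_v | member n) - average over the members t mod p) (log p) p ^ (- i σ)`, `v` running through the primes of degree one above `p`, is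
at most `x ^ (1 / 2 + δ)` in absolute value. -/
theorem result (δ A : ℝ) (hδ : 0 < δ) (hA : 0 ≤ A) :
    ∃ κ C : ℝ, 0 < κ ∧ 0 < C ∧ ∀ (v : ℕ → ℝ) (τ θ : ℝ), (∀ i, 1 ≤ v i) → 0 ≤ τ → θ < 1 →
      (∀ u : ℝ, τ < u → Summable (fun i => v i ^ (-u))) →
      ∃ E : Set ℝ, dimH E ≤ ENNReal.ofReal ((1 - κ + τ) / (1 - θ)) ∧
        ∀ α : ℝ, 0 < α → α ∉ E → ∀ h : ℤ[X], h.Monic → ∀ (r : ℕ) (g : Fin r → ℕ) (G : Fin r → ℤ[X][X][X]) (R : ℕ)
          (Φ : MvPolynomial (Fin R) ℚ),
          ∃ i₀ : ℕ, ∀ i : ℕ, i₀ ≤ i → ∀ n : ℤ, |(|(n : ℝ)|) - α * v i| ≤ v i ^ θ →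
            ∀ x : ℕ, Real.log |(n : ℝ)| ^ C ≤ x → (x : ℝ) ≤ |(n : ℝ)| ^ κ → ∀ q : ℕ, 1 ≤ q → (q : ℝ) ≤ (x : ℝ) ^ A → ∀ a : ℤ,
              ∀ σ : ℝ, |σ| ≤ (x : ℝ) ^ A → ‖difference h g G Φ n x q a σ‖ ≤ (x : ℝ) ^ (1 / 2 + δ) := by
  classical
  obtain ⟨U, hU1, hU2, hU3⟩ := Pool.Agent.X35.GV.progressions A hA
  obtain ⟨κ, C, hκ, hC, H⟩ := Pool.Agent.X35.GV.centered_seqU δ A (2 * A + 2) 0 hδ hA le_rfl U hU1 hU2
  refine ⟨κ, C, hκ, hC, fun v τ θ hv1 hτ hθ hv => ?_⟩
  let Γ : Type := {h : ℤ[X] // h.Monic} × (Σ r : ℕ, (Fin r → ℕ) × (Fin r → ℤ[X][X][X])) × (Σ R : ℕ, MvPolynomial (Fin R) ℚ)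
  have hcount : Countable Γ := by
    have h0 := Pool.Agent.X35.GM.countable_int_poly
    have h0' := Pool.Agent.X35.GV.countable_pp
    have h0'' : Countable ℤ[X][X][X] := by
      rw [← Cardinal.mk_le_aleph0_iff]
      exact Polynomial.cardinalMk_le_max.trans (max_le Cardinal.mk_le_aleph0 le_rfl)
    have h1 := Pool.Agent.X35.GV.countable_mvq
    have h2 : Countable (Σ R : ℕ, MvPolynomial (Fin R) ℚ) := inferInstance
    have h3 : Countable (Σ r : ℕ, (Fin r → ℕ) × (Fin r → ℤ[X][X][X])) := inferInstance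
    infer_instance
  have hbd : ∀ c : Γ, ∃ D : ℝ, 0 < D ∧ ∀ t : Fin c.2.2.1 → ℝ, (∀ i, |t i| ≤ ∑ j, (2 * (c.2.1.2.1 j : ℝ) + 2)) →
      |MvPolynomial.aeval t c.2.2.2| ≤ D := fun c => Pool.Agent.X35.GV.poly_bdd c.2.2.2 _
  choose D hD0 hD using hbd
  obtain ⟨E, hE1, hE2⟩ := H v τ θ hv1 hτ hθ hv Γ (fun c p n => placeSum c.1.1 c.2.1.2.1 c.2.1.2.2 c.2.2.2 p n)
    (fun c => (c.1.1.natDegree + 1) * D c) (fun c => by have := hD0 c; positivity)
    (by
      intro c p hp h2 m m' h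
      unfold placeSum
      refine sum_congr rfl fun ρ _ => ?_
      unfold classFunction AllGood
      rw [red_per m m' ρ p h])
    (by
      intro c p hp h2 n
      rw [Real.rpow_zero, mul_one]
      unfold placeSum
      refine (abs_sum_le_sum_abs _ _).trans ?_
      have h1 : ∀ ρ ∈ places c.1.1 p, |classFunction c.2.1.2.1 c.2.1.2.2 c.2.2.2 n ρ p| ≤ D c := by
        intro ρ _
        unfold classFunction
        split_ifs with hg
        · apply hD c
          intro i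
          refine (abs_sum_le_sum_abs _ _).trans (sum_le_sum fun j _ => ?_)
          exact Pool.Agent.X35.GV.psum_bound (c.2.1.2.1 j) p _ (hg j) (i + 1) (by omega)
        · rw [abs_zero]
          exact (hD0 c).le
      refine (sum_le_sum h1).trans ?_
      rw [sum_const, nsmul_eq_mul]
      have h3 : ((places c.1.1 p).card : ℝ) ≤ c.1.1.natDegree + 1 := by
        have := places_card c.1.2 p hp
        have : ((places c.1.1 p).card : ℝ) ≤ c.1.1.natDegree := by exact_mod_cast this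
        linarith
      exact mul_le_mul_of_nonneg_right h3 (hD0 c).le)
  refine ⟨E, hE1, fun α hα hαE h hh r g G R Φ => ?_⟩
  obtain ⟨i₁, hi₁⟩ := hE2 α hα hαE ⟨⟨h, hh⟩, ⟨r, g, G⟩, ⟨R, Φ⟩⟩
  obtain ⟨i₂, hi₂⟩ := Pool.Agent.X35.GV.log_large hv1 hτ hθ hv α hα 2 C hC
  refine ⟨max i₁ i₂, fun i hi n hn x hx1 hx2 q hq hqx a σ hσ => ?_⟩
  have hx2' : 2 ≤ x := by
    have h1 := (hi₂ i (le_trans (le_max_right _ _) hi) n hn).trans hx1
    exact_mod_cast h1
  have h1 := hi₁ i (le_trans (le_max_left _ _) hi) n hn x hx1 hx2 _ (hU3 x hx2' q hq hqx a) σ hσ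
  rw [zero_add] at h1
  have h2 : difference h g G Φ n x q a σ = ∑ p ∈ Pool.Agent.X35.GV.op x, (((if (p : ℤ) ≡ a [ZMOD (q : ℤ)] then (1 : ℝ) else 0) *
      ((placeSum h g G Φ p n - Pool.Agent.X35.GV.avg p (fun n => placeSum h g G Φ p n)) * Real.log p) : ℝ) : ℂ) *
        (p : ℂ) ^ (-(σ * Complex.I)) := by
    unfold difference
    have e : (range (x + 1)).filter (fun p : ℕ => p.Prime ∧ p ≠ 2 ∧ (p : ℤ) ≡ a [ZMOD (q : ℤ)]) =
        (Pool.Agent.X35.GV.op x).filter (fun p : ℕ => (p : ℤ) ≡ a [ZMOD (q : ℤ)]) := by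
      unfold Pool.Agent.X35.GV.op
      rw [filter_filter]
      congr 1
      funext p
      rw [and_assoc]
    rw [e, sum_filter]
    refine sum_congr rfl fun p _ => ?_
    split_ifs
    · rw [one_mul]
      rfl
    · simp
  rw [h2]
  exact h1

end Pool.Agent.Results.MP_6dc561_nt.AllNumberFieldsNearSequences
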