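import Pool.Agent.X208.CY.Stm

/-!
# The Sato–Tate law: reduction to cyclic component groups

Let `A` be an abelian surface over the number field `K`, `G = ST(A)` with Haar measure `μ`,
`π : G → Q` its component group, `x v` the Frobenius class of `A` at the prime `v` of `K` (arbitrary at the
bad primes). Let `M/K` be a finite Galois extension with group `Γ` over which the Sato–Tate group is
connected, `q : Γ → Q` the restriction map. For a subgroup `H` of `Γ` let `L = M^H`; the classes of `A_L` are
the powers `x v ^ f` (`w` a prime of `L` over `v`, `N w = N v ^ f`), and `ST(A_L) = part π q H` is the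
preimage of `q(H)`.

0. Over `K` itself the discrepancies are those of the Sato–Tate law of `A`.
1. The discrepancies over all fields between `K` and `M` satisfy, up to `o(1)`, all inequalities
   `|∑ c_H D(H, N)| ≤ 2 sup |t| ‖∑ c_H 1_{Γ/H}‖₂`.
2. Artin's formula holds for the discrepancies: those over `L` are determined by those over the fields
   `M^C`, `C` a cyclic subgroup of `H`.
3. The law over the fields `M^C`, `C` cyclic (which have cyclic component groups) implies the law over all
   fields between `K` and `M`, and Sato–Tate over `K`.
4. If the law fails over `K`, it fails over a positive proportion of the fields of every family of fields in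
   Galois extensions of `K` which are on average nearly linearly disjoint.
-/

set_option autoImplicit false

open Filter Topology NumberField IsDedekindDomain MeasureTheory
open Pool.Agent.X208.LD Pool.Agent.X208.CY

namespace Pool.Agent.Results.MP_6dc561_nt.CyclicComponentGroups

/-- **The Sato–Tate law: reduction to cyclic component groups, and spreading of failures.** -/
theorem result {K : Type} [Field K] [NumberField K]
    {G Q : Type} [Group G] [TopologicalSpace G] [IsTopologicalGroup G] [CompactSpace G]
    [MeasurableSpace G] [BorelSpace G] [Group Q] [Finite Q]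
    (μ : Measure G) [IsProbabilityMeasure μ] [μ.IsMulLeftInvariant] [μ.IsMulRightInvariant]
    (π : G →* Q) (hπ : Function.Surjective π) (hk : IsOpen (π.ker : Set G))
    (x : HeightOneSpectrum (𝓞 K) → G)
    (M : Type) [Field M] [NumberField M] [Algebra K M] [IsGalois K M]
    (q : (M ≃ₐ[K] M) →* Q) (hq : Function.Surjective q) :
    -- 0. the base field
    BaseField μ x π q ∧
    -- 1. all linear inequalities
    Inequalities μ x π q ∧
    -- 2. Artin's formula
    ArtinFormula μ x π q ∧
    -- 3. the fields of the cyclic subgroups suffice
    CyclicSuffice μ x π q ∧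
    -- 4. failures spread
    (∀ (t : G → ℝ) (δ : ℝ), IsTest t → (∀ g, |t g| ≤ 1) → 0 < δ → Spreads μ x π q t δ) := by
  have hfd := fd K M
  let _ : Fintype (M ≃ₐ[K] M) := Fintype.ofFinite _
  refine ⟨fun t ht => dev_top μ x hq ht.1, fun t ht B hB S c ε hε => ?_,
    fun t ht H => ?_, ⟨fun H h => ?_, fun h => ?_⟩, fun t δ ht hB hδ hf S hS hrk => ?_⟩
  · unfold rms
    rw [finsum_eq_sum_of_fintype]
    exact dev_le μ x hπ hk ht.1 ht.2 hB S id c hε
  · let _ : Fintype H := Fintype.ofFinite H
    simp only [finsum_eq_sum_of_fintype]
    exact dev_artin μ x hπ hk ht.1 ht.2 H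
  · exact law_of_cyclic μ x hπ hk H h
  · have hL := law_of_cyclic μ x hπ hk (q := q) ⊤ fun C _ hC => h C hC
    intro t ht htc
    have h1 := (hL t ht htc).sub (dev_top μ x (π := π) (q := q) hq ht)
    simp only [sub_zero] at h1
    refine h1.congr fun N => ?_
    ring
  · exact spread μ x hπ hk hq ht.1 ht.2 hB hδ hf S hS hrk

end Pool.Agent.Results.MP_6dc561_nt.CyclicComponentGroups
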