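import Pool.Agent.X35.GM.Mult

/-!
# Frobenius classes of abelian surfaces over number fields at the primes of degree one, for almost all members of every
one-parameter family of Jacobians or of products of two elliptic curves: all boxes, with square-root error against the
finite-field model
-/

set_option autoImplicit false

namespace Pool.Agent.Results.MP_6dc561_nt.FamiliesOverNumberFields

open Finset Polynomial

open Classical in
/-- The primes of degree one above `p` of the number field `F = ℚ[Y]/(h)`, `h` monic: the zeros `0 ≤ r < p` of `h` modulo `p`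
(for irreducible `h` and `p` not dividing the discriminant of `h` they correspond to the primes `v = (p, θ - r)` of `F` with the
residue field `𝔽_p`, `θ` the class of `Y`). -/
noncomputable def places (h : ℤ[X]) (p : ℕ) : Finset ℕ :=
  if p.Prime then (range p).filter (fun r : ℕ => (p : ℤ) ∣ h.eval (r : ℤ)) else ∅

/-- The reduction modulo the prime `v = (p, θ - r)` of the value at `T = n` of a polynomial `c(T)` with coefficients in `ℤ[θ]`; `c`
is given as an element of `ℤ[Y][T]`. -/
noncomputable def red (n r p : ℕ) : ℤ[X][X] →+* ZMod p :=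
  (Int.castRingHom (ZMod p)).comp ((evalRingHom (r : ℤ)).comp (evalRingHom (C (n : ℤ))))

/-- The coefficients `a_1`, `a_2` of `L(T) = 1 + a_1 T + a_2 T² + a_1 T³ + T⁴ = ∏ (1 - u T)`, if `s_1`, `s_2` are the sums of the `u` and of
the `u²`. -/
noncomputable def coeffs (s₁ s₂ : ℝ) : Fin 2 → ℝ := ![-s₁, (s₁ ^ 2 - s₂) / 2]

/-- `y² = f(x)` is a smooth curve of genus `2` over `𝔽_p` (`p` odd, `f` of degree `5` or `6` without multiple root). -/
def GoodCurve (p : ℕ) (f : (ZMod p)[X]) : Prop :=
  p.Prime ∧ p ≠ 2 ∧ (f.natDegree = 5 ∨ f.natDegree = 6) ∧ f.Separable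

open Classical in
/-- The number `#C(𝔽)`, `𝔽` the field with `p ^ k` elements, for the smooth projective curve `C : y² = f(x)` of genus `2`: the affine
points, and the points at infinity (one for each `y ∈ 𝔽` with `y² = c`, `c` the coefficient of `x ^ 6`). -/
noncomputable def curvePoints (p k : ℕ) (f : (ZMod p)[X]) : ℕ :=
  if h : p.Prime then
    haveI : Fact p.Prime := ⟨h⟩
    Nat.card {P : GaloisField p k × GaloisField p k // P.2 ^ 2 = aeval P.1 f} +
      Nat.card {y : GaloisField p k // y ^ 2 = algebraMap (ZMod p) (GaloisField p k) (f.coeff 6)}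
  else 0

/-- The coefficients of the normalised `L`-polynomial of the Jacobian of `y² = f(x)`: the sums of the powers of the eigenvalues are
`(p ^ k + 1 - #C(𝔽)) / p ^ (k / 2)`, `k = 1, 2`. -/
noncomputable def jac (p : ℕ) (f : (ZMod p)[X]) : Fin 2 → ℝ :=
  coeffs (((p : ℝ) + 1 - curvePoints p 1 f) / Real.sqrt p) (((p : ℝ) ^ 2 + 1 - curvePoints p 2 f) / p)

/-- `y² = x³ + a x + b` is an elliptic curve over `𝔽_p` (`p` odd). -/
def GoodCubic (p : ℕ) (a b : ZMod p) : Prop := p.Prime ∧ p ≠ 2 ∧ 4 * a ^ 3 + 27 * b ^ 2 ≠ 0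

open Classical in
/-- The normalised trace of Frobenius `(p + 1 - #E(𝔽_p)) / p ^ (1 / 2)` of `E : y² = x³ + a x + b`. -/
noncomputable def trace (p : ℕ) (a b : ZMod p) : ℝ :=
  ((p : ℝ) - Nat.card {P : ZMod p × ZMod p // P.2 ^ 2 = P.1 ^ 3 + a * P.1 + b}) / Real.sqrt p

/-- The coefficients of the normalised `L`-polynomial `(1 - t T + T²) (1 - t' T + T²)` of the product of two elliptic curves. -/
noncomputable def prodCoeffs (t t' : ℝ) : Fin 2 → ℝ := ![-(t + t'), 2 + t * t']

/-- The member `y² = G_n(x)` of the family `G ∈ ℤ[Y][T][x]` of curves of genus `2` over `F`: the reduction at `v = (p, θ - r)` is good, and the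
pair `(a_1, a_2)`, which determines the conjugacy class in `USp(4)` of the normalised Frobenius element, is in the box `J`. -/
def JacIn (G : ℤ[X][X][X]) (n p r : ℕ) (J : Fin 2 → Set ℝ) : Prop :=
  GoodCurve p (G.map (red n r p)) ∧ ∀ j, jac p (G.map (red n r p)) j ∈ J j

/-- The same for the product of the elliptic curves `y² = x³ + a(n) x + b(n)` and `y² = x³ + a'(n) x + b'(n)` over `F`, where
`c = (a, b, a', b')`. -/
def ProdIn (c : Fin 4 → ℤ[X][X]) (n p r : ℕ) (J : Fin 2 → Set ℝ) : Prop :=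
  (GoodCubic p (red n r p (c 0)) (red n r p (c 1)) ∧ GoodCubic p (red n r p (c 2)) (red n r p (c 3))) ∧
    ∀ j, prodCoeffs (trace p (red n r p (c 0)) (red n r p (c 1))) (trace p (red n r p (c 2)) (red n r p (c 3))) j ∈ J j

open Classical in
/-- The number of the primes `v` of degree one of `F` above the first `K` primes `p` at which the member `n` has the property `P`. -/
noncomputable def count (h : ℤ[X]) (P : ℕ → ℕ → ℕ → Prop) (n K : ℕ) : ℝ :=
  ∑ k ∈ range K, (((places h (Nat.nth Nat.Prime k)).filter (fun r => P n (Nat.nth Nat.Prime k) r)).card : ℝ)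

open Classical in
/-- The expected number: the sum over the first `K` primes `p` of the average over the residues `t` modulo `p` of the
number of the primes `v` of degree one above `p` at which the member `t` has the property `P`. -/
noncomputable def expected (h : ℤ[X]) (P : ℕ → ℕ → ℕ → Prop) (K : ℕ) : ℝ :=
  ∑ k ∈ range K, (∑ t ∈ range (Nat.nth Nat.Prime k),
    (((places h (Nat.nth Nat.Prime k)).filter (fun r => P t (Nat.nth Nat.Prime k) r)).card : ℝ)) / Nat.nth Nat.Prime k

theorem places_card {h : ℤ[X]} (hm : h.Monic) (p : ℕ) : (places h p).card ≤ h.natDegree := by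
  classical
  unfold places
  split_ifs with hp
  · have : Fact p.Prime := ⟨hp⟩
    have hmp : (h.map (Int.castRingHom (ZMod p))).Monic := hm.map _
    have h1 : ((range p).filter (fun r : ℕ => (p : ℤ) ∣ h.eval (r : ℤ))).card ≤
        (h.map (Int.castRingHom (ZMod p))).roots.toFinset.card := by
      apply card_le_card_of_injOn (fun r : ℕ => (r : ZMod p))
      · intro r hr
        rw [mem_coe, mem_filter] at hr
        rw [mem_coe, Multiset.mem_toFinset, mem_roots hmp.ne_zero, IsRoot.def]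
        have h2 : (h.map (Int.castRingHom (ZMod p))).eval ((r : ℕ) : ZMod p) = ((h.eval (r : ℤ) : ℤ) : ZMod p) := by
          simp
        rw [h2]
        exact (ZMod.intCast_zmod_eq_zero_iff_dvd _ p).2 hr.2
      · intro r hr r' hr' he
        rw [mem_coe, mem_filter, mem_range] at hr hr'
        have h3 := (ZMod.natCast_eq_natCast_iff' r r' p).1 he
        rwa [Nat.mod_eq_of_lt hr.1, Nat.mod_eq_of_lt hr'.1] at h3
    refine h1.trans ((Multiset.toFinset_card_le _).trans ((card_roots' _).trans ?_))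
    exact natDegree_map_le
  · simp

theorem red_per (n r p : ℕ) : red (n + p) r p = red n r p := by
  apply RingHom.ext
  intro c
  show (((c.eval (C ((n + p : ℕ) : ℤ))).eval (r : ℤ) : ℤ) : ZMod p) = (((c.eval (C (n : ℤ))).eval (r : ℤ) : ℤ) : ZMod p)
  rw [← sub_eq_zero, ← Int.cast_sub]
  apply (ZMod.intCast_zmod_eq_zero_iff_dvd _ p).2
  rw [← eval_sub]
  have h1 := c.sub_dvd_eval_sub (C ((n + p : ℕ) : ℤ)) (C (n : ℤ))
  have e : (C ((n + p : ℕ) : ℤ) - C (n : ℤ) : ℤ[X]) = C (p : ℤ) := by
    rw [← C_sub]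
    congr 1
    push_cast
    ring
  rw [e] at h1
  obtain ⟨w, hw⟩ := h1
  rw [hw, eval_mul, eval_C]
  exact dvd_mul_right _ _

/-- the general case -/
theorem general (d : ℕ) (δ : ℝ) (hδ : 0 < δ) :
    ∃ κ C : ℝ, 0 < κ ∧ 0 < C ∧ ∀ (h : ℤ[X]), h.Monic → h.natDegree = d →
      ∀ (Q : ℕ → ℕ → ℕ → Prop) (y : ℕ → ℕ → ℕ → Fin 2 → ℝ), (∀ n p r, Q (n + p) p r ↔ Q n p r) →
      (∀ n p r, y (n + p) p r = y n p r) → ∀ N : ℕ, 1 ≤ N →
      ∃ E : Finset ℕ, (E.card : ℝ) ≤ C * (N : ℝ) ^ (1 - κ) ∧
        ∀ n : ℕ, n ≤ N → n ∉ E → ∀ K : ℕ, (K : ℝ) ≤ (N : ℝ) ^ κ →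
          ∀ J : Fin 2 → Set ℝ, (∀ j, (J j).OrdConnected) →
            |count h (fun n p r => Q n p r ∧ ∀ j, y n p r j ∈ J j) n K - expected h (fun n p r => Q n p r ∧ ∀ j, y n p r j ∈ J j) K| ≤
              C * ((K : ℝ) ^ (1 / 2 + δ) * √(1 + Real.log N)) := by
  classical
  obtain ⟨κ, C, h1, _, h3, H⟩ := Pool.Agent.X35.GM.multA d 3 δ hδ
  refine ⟨κ, C, h1, by linarith, fun h hm hd Q y hQ hy N hN => ?_⟩
  set x : ℕ → ℕ → ℕ → Fin 3 → ℝ := fun p n r => Fin.cons (if Q n p r then 1 else 0) (y n p r) with hx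
  obtain ⟨E, hE1, hE2⟩ := H (places h) (fun p => hd ▸ places_card hm p) x (by
    intro p n
    rw [hx]
    funext r
    show (Fin.cons (if Q (n + p) p r then (1 : ℝ) else 0) (y (n + p) p r) : Fin 3 → ℝ) = Fin.cons (if Q n p r then 1 else 0) (y n p r)
    rw [hy, if_congr (hQ n p r) rfl rfl]) N hN
  refine ⟨E, hE1, fun n hn hnE K hK J hJ => ?_⟩
  have h4 := hE2 n hn hnE K hK (Fin.cons {1} J) (by
    rw [Fin.forall_fin_succ]
    exact ⟨Set.ordConnected_singleton, fun j => hJ j⟩)
  have hiff : ∀ n p r, (∀ j, x p n r j ∈ (Fin.cons {1} J : Fin 3 → Set ℝ) j) ↔ (Q n p r ∧ ∀ j, y n p r j ∈ J j) := by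
    intro n p r
    rw [Fin.forall_fin_succ, hx]
    simp only [Fin.cons_zero, Fin.cons_succ, Set.mem_singleton_iff]
    by_cases h5 : Q n p r
    · simp [h5]
    · simp [h5]
  have e1 : Pool.Agent.X35.GM.tot (places h) (fun p => x p n) (Fin.cons {1} J) K =
      count h (fun n p r => Q n p r ∧ ∀ j, y n p r j ∈ J j) n K := by
    unfold Pool.Agent.X35.GM.tot count Pool.Agent.X35.GM.hit
    refine sum_congr rfl fun k _ => ?_
    congr 2
    ext r
    simp only [mem_filter]
    exact and_congr_right fun _ => hiff n _ r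
  have e2 : Pool.Agent.X35.GM.exq (places h) x (Fin.cons {1} J) K =
      expected h (fun n p r => Q n p r ∧ ∀ j, y n p r j ∈ J j) K := by
    unfold Pool.Agent.X35.GM.exq expected Pool.Agent.X35.GM.hit
    refine sum_congr rfl fun k _ => ?_
    congr 1
    refine sum_congr rfl fun t _ => ?_
    congr 2
    ext r
    simp only [mem_filter]
    exact and_congr_right fun _ => hiff t _ r
  rw [e1, e2] at h4
  exact h4

/-- Let `d ≥ 0` and `δ > 0` be given. There are `κ > 0` and `C`, depending on `d` and `δ` only, such that the following holds for every monic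
polynomial `h ∈ ℤ[Y]` of degree `d` (`F = ℚ[Y]/(h)`) and every `N ≥ 1`.

(1) For every `G ∈ ℤ[Y][T][x]` there is a set `E` of at most `C N ^ (1 - κ)` integers such that for every `0 ≤ n ≤ N` outside `E`, every
`K ≤ N ^ κ` and every product `J` of two intervals: the number of the primes `v` of degree one of `F` above the first `K` primes at which the
Jacobian of `y² = G_n(x)` has good reduction (of the model) with `(a_1(v), a_2(v)) ∈ J` differs from its expected value by at most
`C K ^ (1 / 2 + δ) (1 + log N) ^ (1 / 2)`.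

(2) The same holds for the products of the elliptic curves `y² = x³ + a(n) x + b(n)` and `y² = x³ + a'(n) x + b'(n)`, for all
`a, b, a', b' ∈ ℤ[Y][T]`. -/
theorem result (d : ℕ) (δ : ℝ) (hδ : 0 < δ) :
    ∃ κ C : ℝ, 0 < κ ∧ 0 < C ∧ ∀ (h : ℤ[X]), h.Monic → h.natDegree = d → ∀ N : ℕ, 1 ≤ N →
      (∀ G : ℤ[X][X][X], ∃ E : Finset ℕ, (E.card : ℝ) ≤ C * (N : ℝ) ^ (1 - κ) ∧
        ∀ n : ℕ, n ≤ N → n ∉ E → ∀ K : ℕ, (K : ℝ) ≤ (N : ℝ) ^ κ →
          ∀ J : Fin 2 → Set ℝ, (∀ j, (J j).OrdConnected) →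
            |count h (fun n p r => JacIn G n p r J) n K - expected h (fun n p r => JacIn G n p r J) K| ≤
              C * ((K : ℝ) ^ (1 / 2 + δ) * √(1 + Real.log N))) ∧
      (∀ c : Fin 4 → ℤ[X][X], ∃ E : Finset ℕ, (E.card : ℝ) ≤ C * (N : ℝ) ^ (1 - κ) ∧
        ∀ n : ℕ, n ≤ N → n ∉ E → ∀ K : ℕ, (K : ℝ) ≤ (N : ℝ) ^ κ →
          ∀ J : Fin 2 → Set ℝ, (∀ j, (J j).OrdConnected) →
            |count h (fun n p r => ProdIn c n p r J) n K - expected h (fun n p r => ProdIn c n p r J) K| ≤
              C * ((K : ℝ) ^ (1 / 2 + δ) * √(1 + Real.log N))) := by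
  obtain ⟨κ, C, h1, h2, H⟩ := general d δ hδ
  refine ⟨κ, C, h1, h2, fun h hm hd N hN => ⟨fun G => ?_, fun c => ?_⟩⟩
  · refine H h hm hd (fun n p r => GoodCurve p (G.map (red n r p))) (fun n p r => jac p (G.map (red n r p))) ?_ ?_ N hN
    · intro n p r
      rw [red_per]
    · intro n p r
      rw [red_per]
  · refine H h hm hd (fun n p r => GoodCubic p (red n r p (c 0)) (red n r p (c 1)) ∧ GoodCubic p (red n r p (c 2)) (red n r p (c 3)))
      (fun n p r => prodCoeffs (trace p (red n r p (c 0)) (red n r p (c 1))) (trace p (red n r p (c 2)) (red n r p (c 3)))) ?_ ?_ N hN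
    · intro n p r
      rw [red_per]
    · intro n p r
      rw [red_per]

end Pool.Agent.Results.MP_6dc561_nt.FamiliesOverNumberFields
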