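import Pool.Agent.X303.SQ.Main

/-!
# The laws of the traces for abelian surfaces with squares as Frobenius polynomials

`X` is a smooth projective variety over a number field `K`, of dimension `d`, such that `H^i(X)` has
dimension four and almost all characteristic polynomials of Frobenius on `H^i(X)` are squares of
quadratic polynomials.  The main example is `i = 1` and an abelian surface `A` over `K` with
multiplication by a quaternion algebra over `K`, or isogenous to the square of an elliptic curve over
`K`.  Then `V_ℓ(A)` is, over the algebraic closure of `ℚ_ℓ`, a sum `W ⊕ W`, the class `s(v)` of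
`USp(4)` has the eigenvalues `e^{iθ}, e^{iθ}, e^{-iθ}, e^{-iθ}` with `2 cos θ = t v`, and `L(W, s)` is the
square root of the `L`-function of `A`.  The definitions are in `Pool.Agent.X303.SC.HalfDefs`,
`Pool.Agent.X303.SQ.LawDefs2`, `Pool.Agent.X303.SC.LawDefs`, `Pool.Agent.W353.EH.Defs` and
`Pool.Agent.W353.EF.Defs`.
-/

set_option autoImplicit false

namespace Pool.Agent.Results.MP_6dc561_nt.SquareFrobeniusPolynomials

open NumberField IsDedekindDomain Polynomial
open Pool.Agent.W353.EH (HasOrder)
open Pool.Agent.X303.SC (IsHalfTrace IsHalfPower HasMean HasSize DensityZero)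
open Pool.Agent.X303.SQ (IsLaw Orders)

/-- Let `t v` be the normalised trace of Frobenius on `W`, one half of the normalised trace on `H^i(X)`.
Suppose that for every `r ≥ 1` the function `L(W^{⊗ r}, s)` has a meromorphic continuation to a
neighbourhood of the one point `ri/2 + 1`, of order `k_r` there (or only that
`log |L(W^{⊗ r}, ri/2 + 1 + ε)| / log(1/ε)` tends to an integer `-k_r` as `ε → 0+`).  No `L`-function is
assumed to be automorphic, or holomorphic or different from zero on the edge line.  Then one of the
following holds.
* There is an `n ≥ 1` such that, up to a set of primes of Dirichlet density zero, the `t v` are near to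
the finitely many numbers `2 cos(2πj/n)`.
* The `t v = 2 cos θ_v` are equidistributed, in the sense of Dirichlet density, for one of the laws
`(1 + ε cos(nθ)) dθ / π` on `[0, π]` with `ε = -1, 0, 1`, or one half of `dθ / π` plus one half of the
equidistribution on the angles `(2j + a)π/n`, `0 ≤ j < n`, with `a = 0, 1`; here `n ≥ 1`.  All `k_r` are
minus the moments of the law.  If `k₂ ≥ -1`, that is if `L(W ⊗ W, s)` has at most a simple pole, then
`k_r = 0` for odd `r`, and the law is that of `SU(2)` and `k_{2m}` is minus the Catalan number, or it is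
that of the normaliser of `U(1)` in `SU(2)` and `k_{2m}` is minus one half of the central binomial
coefficient. -/
theorem result (K : Type) [Field K] [NumberField K] (l d i : ℕ)
    (X : Set (MvPolynomial (Fin l) (𝓞 K))) (hi : i ≤ 2 * d)
    (t : HeightOneSpectrum (𝓞 K) → ℝ) (ht : IsHalfTrace X d i t) (k : ℕ → ℤ)
    (hk : ∀ r, 1 ≤ r → ∃ B : HeightOneSpectrum (𝓞 K) → ℂ[X], IsHalfPower X d i r B ∧
      (HasOrder (r * i) 0 B (k r) ∨ HasSize (r * i) B (k r))) :
    (∃ n : ℕ, 1 ≤ n ∧ ∀ δ : ℝ, 0 < δ →
      DensityZero {v | ∀ j : ℤ, δ ≤ |t v - 2 * Real.cos (2 * Real.pi * j / n)|}) ∨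
    ∃ L : (ℝ → ℝ) → ℝ, IsLaw L ∧
      (∀ f : ℝ → ℝ, Continuous f → HasMean (fun v => f (t v)) (L f)) ∧ Orders k L :=
  Pool.Agent.X303.SQ.halfLaws hi ht hk

end Pool.Agent.Results.MP_6dc561_nt.SquareFrobeniusPolynomials
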